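import Pool.Agent.Helper83.CO.St

/-!
# Project CO, module COR: the defect of a Laurent polynomial
-/

set_option autoImplicit false

namespace Pool.Agent.Helper18.CO

open Pool.Agent.Helper53.CX Pool.Agent.Helper83.CO MvPolynomial
open scoped BigOperators

private theorem first_COR {k : ℕ} {P : Finset ℂ} {D : Finset (Option ℂ × (Fin (k + 1) → ℤ))}
    (A : Adm P D) (hC : IsC1 P D) (z : Option ℂ → ℤ) :
    ∑ e ∈ D, ((A.la e : ℤ) * e.2 0) * z e.1 =
      A.d * ∑ s ∈ crit P, z s + A.κ * A.w 0 * z A.s₀ := by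
  rw [← Finset.sum_fiberwise_of_maps_to (fun e he => (hC.mem e he).1)
    (fun e => ((A.la e : ℤ) * e.2 0) * z e.1)]
  have h1 : ∀ s ∈ crit P, ∑ e ∈ D.filter (fun e => e.1 = s), ((A.la e : ℤ) * e.2 0) * z e.1 =
      A.d * z s + if s = A.s₀ then A.κ * A.w 0 * z A.s₀ else 0 := by
    intro s hs
    have h2 : ∑ e ∈ D.filter (fun e => e.1 = s), ((A.la e : ℤ) * e.2 0) * z e.1 =
        (∑ e ∈ D.filter (fun e => e.1 = s), (A.la e : ℤ) * e.2 0) * z s := by
      rw [Finset.sum_mul]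
      refine Finset.sum_congr rfl fun e he => ?_
      rw [(Finset.mem_filter.1 he).2]
    rw [h2, A.base s hs, add_mul]
    congr 1
    split
    · next h => rw [h]
    · rw [zero_mul]
  rw [Finset.sum_congr rfl h1, Finset.sum_add_distrib, ← Finset.mul_sum]
  congr 1
  rw [Finset.sum_ite_eq' (crit P) A.s₀, if_pos A.hs]

private theorem second_COR {k : ℕ} {P : Finset ℂ} {D : Finset (Option ℂ × (Fin (k + 1) → ℤ))}
    (A : Adm P D) (α : Fin k → ℤ) :
    ∑ e ∈ D, ∑ j, ((A.la e : ℤ) * e.2 (Fin.succ j)) * α j =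
      A.κ * ∑ j, A.w (Fin.succ j) * α j := by
  rw [Finset.sum_comm, Finset.mul_sum]
  refine Finset.sum_congr rfl fun j _ => ?_
  rw [← Finset.sum_mul, A.tor j, mul_assoc]

theorem hCOR : StCOR := by
  intro k P D A f T hC hT
  obtain ⟨hT0, hT1⟩ := hT
  obtain ⟨_, t, ht, hv'⟩ := hT1 A.s₀ A.w A.v' A.hw A.hv'
  have key : ∑ e ∈ D, (A.la e : ℤ) * pr e.2 (t.1 e.1) t.2 =
      A.d * ∑ s ∈ crit P, t.1 s + A.κ * A.v'.ord f := by
    have h1 : ∑ e ∈ D, (A.la e : ℤ) * pr e.2 (t.1 e.1) t.2 =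
        ∑ e ∈ D, ((A.la e : ℤ) * e.2 0) * t.1 e.1 +
        ∑ e ∈ D, ∑ j, ((A.la e : ℤ) * e.2 (Fin.succ j)) * t.2 j := by
      rw [← Finset.sum_add_distrib]
      refine Finset.sum_congr rfl fun e _ => ?_
      unfold pr
      rw [mul_add, Finset.mul_sum, mul_assoc]
      congr 1
      refine Finset.sum_congr rfl fun j _ => ?_
      rw [mul_assoc]
    rw [h1, first_COR A hC, second_COR A, hv']
    unfold pr
    ring
  refine ⟨t, ht, ?_, hT0 t ht, ?_⟩
  · unfold Adm.Lam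
    simp only [mul_sub, Finset.sum_sub_distrib]
    rw [key]
    ring
  · intro e he
    have h1 := (hT1 e.1 e.2 (A.vd e) (hC.mem e he).2.1 (A.hvd e he)).1 t ht
    linarith

end Pool.Agent.Helper18.CO
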